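import Pool.Agent.PFC.StmtsB3

/-!
CYC: the elements `y i` in the cycle of `i0`.
-/

open scoped BigOperators

noncomputable section

namespace Pool.Agent.PFC.B3.H89

open Function

theorem cyc : CycStmt := by
  intro k I Λ _ _ _ _ _ q p t i0 y hq hy
  set f : I → I := ⇑p with hf
  have hinj : Injective f := p.injective
  have hper : i0 ∈ periodicPts f := hinj.mem_periodicPts i0
  set N := minimalPeriod f i0 with hN
  have hNpos : 0 < N := minimalPeriod_pos_of_mem_periodicPts hper
  have hN0 : f^[N] i0 = i0 := isPeriodicPt_minimalPeriod f i0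
  have hmem : ∀ i, p.SameCycle i0 i ↔ ∃ s, s < N ∧ f^[s + 1] i0 = i := by
    intro i
    constructor
    · intro h
      obtain ⟨n, hn⟩ := h.exists_nat_pow_eq
      rw [← Equiv.Perm.iterate_eq_pow] at hn
      obtain ⟨j, hj⟩ : ∃ j, j ∈ periodicPts f ∧ f j = i :=
        ⟨p.symm i, hinj.mem_periodicPts _, by simp [hf]⟩
      refine ⟨(n + (N - 1)) % N, Nat.mod_lt _ hNpos, ?_⟩
      rw [iterate_succ_apply', iterate_mod_minimalPeriod_eq, ← iterate_succ_apply' f]
      have h1 : (n + (N - 1)).succ = n + N := by omega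
      rw [h1, iterate_add_apply, hN0]
      exact hn
    · rintro ⟨s, -, rfl⟩
      refine ⟨((s + 1 : ℕ) : ℤ), ?_⟩
      rw [zpow_natCast, ← Equiv.Perm.iterate_eq_pow]
  have hprod : ∏ i ∈ Finset.univ.filter (fun i => p.SameCycle i0 i), q i =
      ∏ s ∈ Finset.range N, q (f^[s + 1] i0) := by
    have h1 : Finset.univ.filter (fun i => p.SameCycle i0 i) =
        (Finset.range N).image fun s => f^[s + 1] i0 := by
      ext i
      rw [Finset.mem_filter, Finset.mem_image, hmem]
      simp only [Finset.mem_univ, true_and, Finset.mem_range]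
    rw [h1, Finset.prod_image]
    intro a ha b hb hab
    have ha' : a < N := Finset.mem_range.mp ha
    have hb' : b < N := Finset.mem_range.mp hb
    simp only [iterate_succ_apply'] at hab
    exact iterate_injOn_Iio_minimalPeriod ha' hb' (hinj hab)
  have hstep : ∀ s, s < N → ∃ n : ℕ,
      y (p i0) ^ (∏ r ∈ Finset.range s, q (f^[r + 1] i0)) = t ^ n • y (f^[s + 1] i0) := by
    intro s
    induction s with
    | zero =>
      intro _
      refine ⟨0, ?_⟩
      simp [hf]
    | succ s ih =>
      intro hs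
      obtain ⟨n, hn⟩ := ih (by omega)
      have hne : f^[s + 1] i0 ≠ i0 := by
        intro h
        exact not_isPeriodicPt_of_pos_of_lt_minimalPeriod (Nat.succ_ne_zero s) hs h
      refine ⟨n * q (f^[s + 1] i0) + 1, ?_⟩
      rw [Finset.prod_range_succ, pow_mul, hn, smul_pow, hy, cc, if_neg hne, smul_smul,
        ← pow_mul, ← pow_succ]
      congr 2
      rw [iterate_succ_apply' f (s + 1)]
  constructor
  · intro i hi
    obtain ⟨s, hs, rfl⟩ := (hmem i).mp hi
    obtain ⟨n, hn⟩ := hstep s hs
    refine ⟨n, _, ?_, hn⟩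
    refine Nat.succ_le_of_lt (Finset.prod_pos fun r _ => ?_)
    have h2 := hq (f^[r + 1] i0)
    omega
  · obtain ⟨n, hn⟩ := hstep (N - 1) (by omega)
    have h1 : N = (N - 1) + 1 := by omega
    have h2 : f^[N - 1 + 1] i0 = i0 := by rw [← h1]; exact hN0
    rw [h2] at hn
    rw [hprod]
    have h3 : ∏ s ∈ Finset.range N, q (f^[s + 1] i0) =
        (∏ s ∈ Finset.range (N - 1), q (f^[s + 1] i0)) * q i0 := by
      conv_lhs => rw [h1]
      rw [Finset.prod_range_succ, h2]
    rw [h3, pow_mul, hn, smul_pow, hy, cc, if_pos rfl, zero_smul, smul_zero]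

end Pool.Agent.PFC.B3.H89
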