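import Pool.Agent.PFC.StmtsB3

/-!
MAP: from the order over the power series ring to the algebra over its fraction field.
-/

open scoped BigOperators

noncomputable section

namespace Pool.Agent.PFC.B3.H89

open MvPolynomial

/-- every element of the fraction field of the power series ring becomes a power series after
multiplication by a power of the variable -/
theorem den (F L : Type) [Field F] [Field L] [Algebra (PowerSeries F) L]
    [IsFractionRing (PowerSeries F) L] (l : L) :
    ∃ (n : ℕ) (r : PowerSeries F),
      algebraMap (PowerSeries F) L PowerSeries.X ^ n * l = algebraMap (PowerSeries F) L r := by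
  obtain ⟨a, s, hs, hl⟩ := IsFractionRing.div_surjective (A := PowerSeries F) l
  have hs0 : s ≠ 0 := nonZeroDivisors.ne_zero hs
  have hsp := PowerSeries.X_pow_order_mul_divXPowOrder (f := s)
  have hu : IsUnit (PowerSeries.divXPowOrder s) := by
    rw [PowerSeries.isUnit_iff_constantCoeff]
    have := PowerSeries.constantCoeff_divXPowOrder_eq_zero_iff (f := s)
    rw [isUnit_iff_ne_zero]
    intro h
    exact hs0 (this.mp h)
  obtain ⟨u, hu⟩ := hu
  set v : PowerSeries F := ((u⁻¹ : (PowerSeries F)ˣ) : PowerSeries F) with hv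
  have huv : v * (u : PowerSeries F) = 1 := Units.inv_mul u
  refine ⟨s.order.toNat, a * v, ?_⟩
  have hsL : algebraMap (PowerSeries F) L s ≠ 0 := by
    intro h
    exact hs0 ((IsFractionRing.injective (PowerSeries F) L) (by rw [h, map_zero]))
  rw [← hl, ← mul_div_assoc, div_eq_iff hsL, ← map_pow, ← map_mul, ← map_mul]
  congr 1
  conv_rhs => rw [← hsp, ← hu]
  have h1 : a * v * (PowerSeries.X ^ s.order.toNat * (u : PowerSeries F)) =
      PowerSeries.X ^ s.order.toNat * a * (v * (u : PowerSeries F)) := by ring
  rw [h1, huv, mul_one]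

theorem map : MapStmt := by
  intro F I E Λ L Λ' _ _ _ _ _ _ _ _ _ _ _ q p c c' η η' P P' hc hη
  classical
  set A : PowerSeries F →+* L := algebraMap (PowerSeries F) L with hA
  have hC : ∀ l : L, P'.j (C l) = algebraMap L Λ' l := fun l => by
    rw [← MvPolynomial.algebraMap_eq, AlgHom.commutes]
  obtain ⟨h, hj, hε⟩ := P.up Λ' ((P'.j : MvPolynomial I L →+* Λ').comp (MvPolynomial.map A))
    P'.ε (by
      intro i
      simp only [RingHom.comp_apply, map_X, map_C, RingHom.coe_coe, hC]
      rw [P'.rel i, hc, Algebra.smul_def]) (by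
      intro e i
      simp only [RingHom.comp_apply, map_X, map_C, RingHom.coe_coe, hC]
      rw [P'.cm e i, hη, Algebra.smul_def, mul_assoc]) (by
      intro e a
      simp only [RingHom.comp_apply, map_C, RingHom.coe_coe, hC]
      exact (Algebra.commutes _ _).symm)
  have hj' : ∀ f, h (P.j f) = P'.j (MvPolynomial.map A f) := hj
  have hs : ∀ (r : PowerSeries F) a, h (r • a) = A r • h a := by
    intro r a
    have h1 : P.j (C r) = algebraMap (PowerSeries F) Λ r := by
      rw [← MvPolynomial.algebraMap_eq, AlgHom.commutes]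
    rw [Algebra.smul_def, map_mul, ← h1, hj', map_C, hC, Algebra.smul_def]
  have hb : ∀ x, h (P.b x) = P'.b x := by
    rintro ⟨α, e⟩
    rw [P.hb, P'.hb, map_mul, hε, hj']
    congr 2
    simp only [mo, map_prod, map_pow, map_X]
  have hrep : ∀ a x, P'.b.repr (h a) x = A (P.b.repr a x) := by
    intro a x
    conv_lhs => rw [← P.b.linearCombination_repr a]
    rw [Finsupp.linearCombination_apply, Finsupp.sum, map_sum]
    have h1 : ∀ y ∈ (P.b.repr a).support, h ((P.b.repr a) y • P.b y) =
        A ((P.b.repr a) y) • P'.b y := by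
      intro y _
      rw [hs, hb]
    rw [Finset.sum_congr rfl h1, map_sum, Finsupp.finsetSum_apply]
    simp only [map_smul, Module.Basis.repr_self, Finsupp.smul_apply, smul_eq_mul,
      Finsupp.single_apply, mul_ite, mul_one, mul_zero]
    rw [Finset.sum_ite_eq']
    split_ifs with h2
    · rfl
    · rw [Finsupp.notMem_support_iff.mp h2, map_zero]
  refine ⟨h, ?_, hε, hs, ?_, ?_⟩
  · intro i
    rw [hj', map_X]
  · rw [injective_iff_map_eq_zero]
    intro a ha
    apply P.b.repr.injective
    rw [map_zero]
    ext1 x
    apply IsFractionRing.injective (PowerSeries F) L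
    rw [← hA, ← hrep, ha]
    simp
  · intro z
    cases nonempty_fintype E
    choose n r hr using den F L
    refine ⟨∑ x, n (P'.b.repr z x), ∑ x, (PowerSeries.X ^
      (∑ y ∈ Finset.univ.erase x, n (P'.b.repr z y)) * r (P'.b.repr z x)) • P.b x, ?_⟩
    rw [map_sum]
    conv_lhs =>
      enter [2]
      rw [← P'.b.sum_repr z]
    rw [Finset.smul_sum]
    refine Finset.sum_congr rfl fun x _ => ?_
    rw [hs, hb, smul_smul]
    congr 1
    rw [map_mul, map_pow, ← hr, ← mul_assoc, ← pow_add,
      Finset.sum_erase_add _ _ (Finset.mem_univ x)]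

end Pool.Agent.PFC.B3.H89
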